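import Pool.Agent.MTR.ZFI
import Pool.Agent.MTC.S0s.B0
import Pool.Agent.MTC.S0s.B1
import Pool.Agent.MTC.S0s.B2
import Pool.Agent.MTC.S0s.B3
import Pool.Agent.MTC.S0s.B4
import Pool.Agent.MTC.S0s.B5
import Pool.Agent.MTC.S0s.B6
import Pool.Agent.MTC.S0s.B7
import Pool.Agent.MTC.S0s.S
set_option autoImplicit false
set_option maxRecDepth 100000
open MeasureTheory Set Metric Pool.Agent.MEIS Pool.Agent.MSQ Pool.Agent.MGE Pool.Agent.MGF Pool.Agent.PKD Pool.Agent.MTR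
namespace Pool.Agent.MTC.S0s
theorem ev : (evenL F.f0 && evenL F.f1 && oddL F.f2 && evenL F.f3 && evenL F.f4 && evenL F.f5 && oddL F.f6) = true := by decide +kernel
/-- boxes -/
def L0 : List Bn := [⟨1, 2, 7, 8, 8⟩, ⟨2, 3, 3, 4, 8⟩, ⟨2, 3, 0, 1, 8⟩, ⟨2, 3, 1, 2, 8⟩, ⟨2, 3, 2, 3, 8⟩, ⟨3, 4, 0, 1, 8⟩, ⟨3, 4, 1, 2, 8⟩, ⟨3, 4, 2, 3, 8⟩, ⟨3, 4, 5, 6, 8⟩, ⟨3, 4, 4, 5, 8⟩, ⟨3, 4, 3, 4, 8⟩, ⟨3, 4, 6, 7, 8⟩, ⟨3, 4, 7, 8, 8⟩, ⟨4, 5, 2, 3, 8⟩, ⟨4, 5, 3, 4, 8⟩, ⟨4, 5, 4, 5, 8⟩, ⟨4, 5, 5, 6, 8⟩, ⟨4, 5, 6, 7, 8⟩, ⟨4, 5, 7, 8, 8⟩, ⟨4, 5, 1, 2, 8⟩]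
theorem hL0 : ∀ b ∈ L0, BoxOK 0 1 6 1000 g true 113 false b := by
  simp only [L0, List.forall_mem_cons, List.not_mem_nil, false_imp_iff, implies_true, and_true]
  exact ⟨⟨b0, _, rfl, rc8, h0⟩,
    ⟨b1, _, rfl, rc8, h1⟩,
    ⟨b2, _, rfl, rc8, h2⟩,
    ⟨b3, _, rfl, rc8, h3⟩,
    ⟨b4, _, rfl, rc8, h4⟩,
    ⟨b5, _, rfl, rc8, h5⟩,
    ⟨b6, _, rfl, rc8, h6⟩,
    ⟨b7, _, rfl, rc8, h7⟩,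
    ⟨b8, _, rfl, rc8, h8⟩,
    ⟨b9, _, rfl, rc8, h9⟩,
    ⟨b10, _, rfl, rc8, h10⟩,
    ⟨b11, _, rfl, rc8, h11⟩,
    ⟨b12, _, rfl, rc8, h12⟩,
    ⟨b13, _, rfl, rc8, h13⟩,
    ⟨b14, _, rfl, rc8, h14⟩,
    ⟨b15, _, rfl, rc8, h15⟩,
    ⟨b16, _, rfl, rc8, h16⟩,
    ⟨b17, _, rfl, rc8, h17⟩,
    ⟨b18, _, rfl, rc8, h18⟩,
    ⟨b19, _, rfl, rc8, h19⟩⟩
/-- boxes -/
def L1 : List Bn := [⟨5, 6, 2, 3, 8⟩, ⟨5, 6, 3, 4, 8⟩, ⟨5, 6, 4, 5, 8⟩, ⟨5, 6, 5, 6, 8⟩, ⟨5, 6, 1, 2, 8⟩, ⟨5, 6, 6, 7, 8⟩, ⟨5, 6, 7, 8, 8⟩, ⟨6, 7, 2, 3, 8⟩, ⟨6, 7, 3, 4, 8⟩, ⟨6, 7, 4, 5, 8⟩, ⟨6, 7, 5, 6, 8⟩, ⟨6, 7, 6, 7, 8⟩, ⟨6, 7, 7, 8, 8⟩, ⟨7, 8, 3, 4, 8⟩, ⟨7, 8, 7, 8, 8⟩, ⟨0, 1, 0, 4, 32⟩, ⟨0, 1, 4, 8, 32⟩, ⟨0, 1, 8, 12, 32⟩, ⟨0, 1, 12, 16, 32⟩, ⟨0, 1,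 16, 20, 32⟩]
theorem hL1 : ∀ b ∈ L1, BoxOK 0 1 6 1000 g true 113 false b := by
  simp only [L1, List.forall_mem_cons, List.not_mem_nil, false_imp_iff, implies_true, and_true]
  exact ⟨⟨b20, _, rfl, rc8, h20⟩,
    ⟨b21, _, rfl, rc8, h21⟩,
    ⟨b22, _, rfl, rc8, h22⟩,
    ⟨b23, _, rfl, rc8, h23⟩,
    ⟨b24, _, rfl, rc8, h24⟩,
    ⟨b25, _, rfl, rc8, h25⟩,
    ⟨b26, _, rfl, rc8, h26⟩,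
    ⟨b27, _, rfl, rc8, h27⟩,
    ⟨b28, _, rfl, rc8, h28⟩,
    ⟨b29, _, rfl, rc8, h29⟩,
    ⟨b30, _, rfl, rc8, h30⟩,
    ⟨b31, _, rfl, rc8, h31⟩,
    ⟨b32, _, rfl, rc8, h32⟩,
    ⟨b33, _, rfl, rc8, h33⟩,
    ⟨b34, _, rfl, rc8, h34⟩,
    ⟨b35, _, rfl, rc32, h35⟩,
    ⟨b36, _, rfl, rc32, h36⟩,
    ⟨b37, _, rfl, rc32, h37⟩,
    ⟨b38, _, rfl, rc32, h38⟩,
    ⟨b39, _, rfl, rc32, h39⟩⟩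
/-- boxes -/
def L2 : List Bn := [⟨0, 1, 20, 24, 32⟩, ⟨0, 1, 28, 32, 32⟩, ⟨0, 1, 24, 28, 32⟩, ⟨1, 2, 0, 4, 32⟩, ⟨1, 2, 4, 8, 32⟩, ⟨1, 2, 8, 12, 32⟩, ⟨1, 2, 20, 24, 32⟩, ⟨1, 2, 16, 20, 32⟩, ⟨1, 2, 12, 16, 32⟩, ⟨1, 2, 24, 28, 32⟩, ⟨1, 2, 28, 32, 32⟩, ⟨1, 2, 0, 2, 16⟩, ⟨1, 2, 2, 4, 16⟩, ⟨1, 2, 4, 6, 16⟩, ⟨1, 2, 6, 8, 16⟩, ⟨1, 2, 8, 10, 16⟩, ⟨1, 2, 10, 12, 16⟩, ⟨1, 2, 12, 14, 16⟩, ⟨1, 2, 14, 16, 16⟩, ⟨2, 3, 3, 4, 16⟩]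
theorem hL2 : ∀ b ∈ L2, BoxOK 0 1 6 1000 g true 113 false b := by
  simp only [L2, List.forall_mem_cons, List.not_mem_nil, false_imp_iff, implies_true, and_true]
  exact ⟨⟨b40, _, rfl, rc32, h40⟩,
    ⟨b41, _, rfl, rc32, h41⟩,
    ⟨b42, _, rfl, rc32, h42⟩,
    ⟨b43, _, rfl, rc32, h43⟩,
    ⟨b44, _, rfl, rc32, h44⟩,
    ⟨b45, _, rfl, rc32, h45⟩,
    ⟨b46, _, rfl, rc32, h46⟩,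
    ⟨b47, _, rfl, rc32, h47⟩,
    ⟨b48, _, rfl, rc32, h48⟩,
    ⟨b49, _, rfl, rc32, h49⟩,
    ⟨b50, _, rfl, rc32, h50⟩,
    ⟨b51, _, rfl, rc16, h51⟩,
    ⟨b52, _, rfl, rc16, h52⟩,
    ⟨b53, _, rfl, rc16, h53⟩,
    ⟨b54, _, rfl, rc16, h54⟩,
    ⟨b55, _, rfl, rc16, h55⟩,
    ⟨b56, _, rfl, rc16, h56⟩,
    ⟨b57, _, rfl, rc16, h57⟩,
    ⟨b58, _, rfl, rc16, h58⟩,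
    ⟨b59, _, rfl, rc16, h59⟩⟩
/-- boxes -/
def L3 : List Bn := [⟨3, 4, 3, 4, 16⟩, ⟨3, 4, 2, 3, 16⟩, ⟨2, 3, 2, 3, 16⟩, ⟨2, 3, 6, 7, 16⟩, ⟨2, 3, 7, 8, 16⟩, ⟨3, 4, 7, 8, 16⟩, ⟨3, 4, 6, 7, 16⟩, ⟨2, 3, 4, 5, 16⟩, ⟨2, 3, 5, 6, 16⟩, ⟨3, 4, 4, 5, 16⟩, ⟨3, 4, 5, 6, 16⟩, ⟨2, 3, 0, 1, 16⟩, ⟨2, 3, 1, 2, 16⟩, ⟨3, 4, 1, 2, 16⟩, ⟨3, 4, 0, 1, 16⟩, ⟨2, 3, 10, 11, 16⟩, ⟨2, 3, 11, 12, 16⟩, ⟨3, 4, 11, 12, 16⟩, ⟨3, 4, 10, 11, 16⟩, ⟨2, 3, 9, 10, 16⟩]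
theorem hL3 : ∀ b ∈ L3, BoxOK 0 1 6 1000 g true 113 false b := by
  simp only [L3, List.forall_mem_cons, List.not_mem_nil, false_imp_iff, implies_true, and_true]
  exact ⟨⟨b60, _, rfl, rc16, h60⟩,
    ⟨b61, _, rfl, rc16, h61⟩,
    ⟨b62, _, rfl, rc16, h62⟩,
    ⟨b63, _, rfl, rc16, h63⟩,
    ⟨b64, _, rfl, rc16, h64⟩,
    ⟨b65, _, rfl, rc16, h65⟩,
    ⟨b66, _, rfl, rc16, h66⟩,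
    ⟨b67, _, rfl, rc16, h67⟩,
    ⟨b68, _, rfl, rc16, h68⟩,
    ⟨b69, _, rfl, rc16, h69⟩,
    ⟨b70, _, rfl, rc16, h70⟩,
    ⟨b71, _, rfl, rc16, h71⟩,
    ⟨b72, _, rfl, rc16, h72⟩,
    ⟨b73, _, rfl, rc16, h73⟩,
    ⟨b74, _, rfl, rc16, h74⟩,
    ⟨b75, _, rfl, rc16, h75⟩,
    ⟨b76, _, rfl, rc16, h76⟩,
    ⟨b77, _, rfl, rc16, h77⟩,
    ⟨b78, _, rfl, rc16, h78⟩,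
    ⟨b79, _, rfl, rc16, h79⟩⟩
/-- boxes -/
def L4 : List Bn := [⟨2, 3, 8, 9, 16⟩, ⟨3, 4, 8, 9, 16⟩, ⟨3, 4, 9, 10, 16⟩, ⟨2, 3, 13, 14, 16⟩, ⟨2, 3, 12, 13, 16⟩, ⟨3, 4, 12, 13, 16⟩, ⟨3, 4, 13, 14, 16⟩, ⟨4, 5, 8, 9, 16⟩, ⟨4, 5, 9, 10, 16⟩, ⟨5, 6, 8, 9, 16⟩, ⟨4, 5, 10, 11, 16⟩, ⟨5, 6, 9, 10, 16⟩, ⟨4, 5, 11, 12, 16⟩, ⟨5, 6, 10, 11, 16⟩, ⟨5, 6, 11, 12, 16⟩, ⟨4, 5, 12, 13, 16⟩, ⟨4, 5, 13, 14, 16⟩, ⟨5, 6, 12, 13, 16⟩, ⟨5, 6, 13, 14, 16⟩, ⟨4, 5, 14, 15, 16⟩]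
theorem hL4 : ∀ b ∈ L4, BoxOK 0 1 6 1000 g true 113 false b := by
  simp only [L4, List.forall_mem_cons, List.not_mem_nil, false_imp_iff, implies_true, and_true]
  exact ⟨⟨b80, _, rfl, rc16, h80⟩,
    ⟨b81, _, rfl, rc16, h81⟩,
    ⟨b82, _, rfl, rc16, h82⟩,
    ⟨b83, _, rfl, rc16, h83⟩,
    ⟨b84, _, rfl, rc16, h84⟩,
    ⟨b85, _, rfl, rc16, h85⟩,
    ⟨b86, _, rfl, rc16, h86⟩,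
    ⟨b87, _, rfl, rc16, h87⟩,
    ⟨b88, _, rfl, rc16, h88⟩,
    ⟨b89, _, rfl, rc16, h89⟩,
    ⟨b90, _, rfl, rc16, h90⟩,
    ⟨b91, _, rfl, rc16, h91⟩,
    ⟨b92, _, rfl, rc16, h92⟩,
    ⟨b93, _, rfl, rc16, h93⟩,
    ⟨b94, _, rfl, rc16, h94⟩,
    ⟨b95, _, rfl, rc16, h95⟩,
    ⟨b96, _, rfl, rc16, h96⟩,
    ⟨b97, _, rfl, rc16, h97⟩,
    ⟨b98, _, rfl, rc16, h98⟩,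
    ⟨b99, _, rfl, rc16, h99⟩⟩
/-- boxes -/
def L5 : List Bn := [⟨4, 5, 15, 16, 16⟩, ⟨5, 6, 14, 15, 16⟩, ⟨5, 6, 15, 16, 16⟩, ⟨9, 10, 0, 1, 16⟩, ⟨9, 10, 1, 2, 16⟩, ⟨8, 9, 0, 1, 16⟩, ⟨8, 9, 1, 2, 16⟩, ⟨12, 13, 3, 4, 16⟩, ⟨13, 14, 3, 4, 16⟩, ⟨12, 13, 2, 3, 16⟩, ⟨13, 14, 2, 3, 16⟩, ⟨10, 11, 0, 1, 16⟩, ⟨10, 11, 1, 2, 16⟩, ⟨14, 15, 2, 3, 16⟩, ⟨14, 15, 3, 4, 16⟩, ⟨11, 12, 0, 1, 16⟩, ⟨15, 16, 2, 3, 16⟩, ⟨15, 16, 3, 4, 16⟩, ⟨11, 12, 1, 2, 16⟩, ⟨12, 13, 1, 2, 16⟩]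
theorem hL5 : ∀ b ∈ L5, BoxOK 0 1 6 1000 g true 113 false b := by
  simp only [L5, List.forall_mem_cons, List.not_mem_nil, false_imp_iff, implies_true, and_true]
  exact ⟨⟨b100, _, rfl, rc16, h100⟩,
    ⟨b101, _, rfl, rc16, h101⟩,
    ⟨b102, _, rfl, rc16, h102⟩,
    ⟨b103, _, rfl, rc16, h103⟩,
    ⟨b104, _, rfl, rc16, h104⟩,
    ⟨b105, _, rfl, rc16, h105⟩,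
    ⟨b106, _, rfl, rc16, h106⟩,
    ⟨b107, _, rfl, rc16, h107⟩,
    ⟨b108, _, rfl, rc16, h108⟩,
    ⟨b109, _, rfl, rc16, h109⟩,
    ⟨b110, _, rfl, rc16, h110⟩,
    ⟨b111, _, rfl, rc16, h111⟩,
    ⟨b112, _, rfl, rc16, h112⟩,
    ⟨b113, _, rfl, rc16, h113⟩,
    ⟨b114, _, rfl, rc16, h114⟩,
    ⟨b115, _, rfl, rc16, h115⟩,
    ⟨b116, _, rfl, rc16, h116⟩,
    ⟨b117, _, rfl, rc16, h117⟩,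
    ⟨b118, _, rfl, rc16, h118⟩,
    ⟨b119, _, rfl, rc16, h119⟩⟩
/-- boxes -/
def L6 : List Bn := [⟨12, 13, 0, 1, 16⟩, ⟨13, 14, 1, 2, 16⟩, ⟨13, 14, 0, 1, 16⟩, ⟨15, 16, 1, 2, 16⟩, ⟨14, 15, 4, 5, 16⟩, ⟨14, 15, 1, 2, 16⟩, ⟨14, 15, 0, 1, 16⟩, ⟨14, 15, 5, 6, 16⟩, ⟨15, 16, 4, 5, 16⟩, ⟨15, 16, 0, 1, 16⟩, ⟨14, 15, 8, 9, 16⟩, ⟨15, 16, 5, 6, 16⟩, ⟨14, 15, 9, 10, 16⟩, ⟨14, 15, 10, 11, 16⟩, ⟨14, 15, 11, 12, 16⟩, ⟨15, 16, 8, 9, 16⟩, ⟨15, 16, 10, 11, 16⟩, ⟨15, 16, 9, 10, 16⟩, ⟨14, 15, 12, 13, 16⟩, ⟨15, 16, 11, 12, 16⟩]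
theorem hL6 : ∀ b ∈ L6, BoxOK 0 1 6 1000 g true 113 false b := by
  simp only [L6, List.forall_mem_cons, List.not_mem_nil, false_imp_iff, implies_true, and_true]
  exact ⟨⟨b120, _, rfl, rc16, h120⟩,
    ⟨b121, _, rfl, rc16, h121⟩,
    ⟨b122, _, rfl, rc16, h122⟩,
    ⟨b123, _, rfl, rc16, h123⟩,
    ⟨b124, _, rfl, rc16, h124⟩,
    ⟨b125, _, rfl, rc16, h125⟩,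
    ⟨b126, _, rfl, rc16, h126⟩,
    ⟨b127, _, rfl, rc16, h127⟩,
    ⟨b128, _, rfl, rc16, h128⟩,
    ⟨b129, _, rfl, rc16, h129⟩,
    ⟨b130, _, rfl, rc16, h130⟩,
    ⟨b131, _, rfl, rc16, h131⟩,
    ⟨b132, _, rfl, rc16, h132⟩,
    ⟨b133, _, rfl, rc16, h133⟩,
    ⟨b134, _, rfl, rc16, h134⟩,
    ⟨b135, _, rfl, rc16, h135⟩,
    ⟨b136, _, rfl, rc16, h136⟩,
    ⟨b137, _, rfl, rc16, h137⟩,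
    ⟨b138, _, rfl, rc16, h138⟩,
    ⟨b139, _, rfl, rc16, h139⟩⟩
/-- boxes -/
def L7 : List Bn := [⟨14, 15, 13, 14, 16⟩, ⟨15, 16, 12, 13, 16⟩, ⟨15, 16, 13, 14, 16⟩]
theorem hL7 : ∀ b ∈ L7, BoxOK 0 1 6 1000 g true 113 false b := by
  simp only [L7, List.forall_mem_cons, List.not_mem_nil, false_imp_iff, implies_true, and_true]
  exact ⟨⟨b140, _, rfl, rc16, h140⟩,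
    ⟨b141, _, rfl, rc16, h141⟩,
    ⟨b142, _, rfl, rc16, h142⟩⟩
/-- intervals -/
def LS : List Bn := [⟨0, 1, 0, 0, 16⟩, ⟨1, 2, 0, 0, 16⟩, ⟨2, 3, 0, 0, 16⟩, ⟨3, 4, 0, 0, 16⟩, ⟨4, 5, 0, 0, 16⟩, ⟨5, 6, 0, 0, 16⟩, ⟨6, 7, 0, 0, 16⟩, ⟨7, 8, 0, 0, 16⟩, ⟨8, 9, 0, 0, 16⟩, ⟨9, 10, 0, 0, 16⟩, ⟨10, 11, 0, 0, 16⟩, ⟨11, 12, 0, 0, 16⟩, ⟨12, 13, 0, 0, 16⟩, ⟨13, 14, 0, 0, 16⟩, ⟨14, 15, 0, 0, 16⟩, ⟨15, 16, 0, 0, 16⟩]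
theorem hLS : ∀ b ∈ LS, SideOK 0 1 6 1000 g F b := by
  simp only [LS, List.forall_mem_cons, List.not_mem_nil, false_imp_iff, implies_true, and_true]
  exact ⟨⟨s0, 7, rfl, t0⟩,
    ⟨s1, 7, rfl, t1⟩,
    ⟨s2, 7, rfl, t2⟩,
    ⟨s3, 7, rfl, t3⟩,
    ⟨s4, 7, rfl, t4⟩,
    ⟨s5, 7, rfl, t5⟩,
    ⟨s6, 7, rfl, t6⟩,
    ⟨s7, 7, rfl, t7⟩,
    ⟨s8, 7, rfl, t8⟩,
    ⟨s9, 7, rfl, t9⟩,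
    ⟨s10, 7, rfl, t10⟩,
    ⟨s11, 7, rfl, t11⟩,
    ⟨s12, 7, rfl, t12⟩,
    ⟨s13, 7, rfl, t13⟩,
    ⟨s14, 7, rfl, t14⟩,
    ⟨s15, 7, rfl, t15⟩⟩
theorem chS : chn 0 1 LS = true := by decide +kernel
/-- all boxes -/
def L : List Bn := L0 ++ L1 ++ L2 ++ L3 ++ L4 ++ L5 ++ L6 ++ L7
theorem hL : ∀ b ∈ L, BoxOK 0 1 6 1000 g true 113 false b := by
  intro b hb
  simp only [L, List.mem_append] at hb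
  rcases hb with (((((((h | h) | h) | h) | h) | h) | h) | h)
  · exact hL0 b h
  · exact hL1 b h
  · exact hL2 b h
  · exact hL3 b h
  · exact hL4 b h
  · exact hL5 b h
  · exact hL6 b h
  · exact hL7 b h
theorem hq : ∀ b ∈ L, 0 < b.q := by
  have h : (L.all fun b => Nat.ble 1 b.q) = true := by decide +kernel
  intro b hb
  exact Nat.le_of_ble_eq_true (List.all_eq_true.mp h b hb)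
theorem hc : covQ 32 L 12 0 32 0 32 = true := by decide +kernel
/-- the certificate of the triangle -/
theorem cert {T : E → ℝ} {β : ℝ} (h : TrHyp T β) (hβ : inR (rgOf 0 1 6 1000) β) :
    sF0 (FFd F) T + sF1 (FFd F) T + sF2 (FFd F) T + 24000 * payOf true 113 / (√2 * g.D) ≤ CN T :=
  tri_cert3 ⟨by norm_num [rgOf], by norm_num [rgOf], by norm_num [rgOf]⟩ hg 32 12 (by norm_num) L hq hc hL F (by norm_num [F]) ev tx ty LS chS hLS h hβ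
end Pool.Agent.MTC.S0s
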